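import Mathlib
import Pool.Agent.Lib.MP_5deabe_nt_DF.Defs3

/-!
# Descent presentations and the main conjecture for the Selmer group of `E` over `F`

Let `F` be a real abelian field of `p`-power degree whose conductor satisfies (i)-(iii), and let
`G = Gal(F/ℚ)`, `I` the augmentation ideal of `ℤ_p[G]`.  The Pontryagin dual `X_F` of the
`p^∞`-Selmer group of `E` over `F` has a presentation by a square matrix `A` over `ℤ_p[G]`, and `A`
modulo `I` presents the dual `X_ℚ` of the Selmer group of `E` over `ℚ`, which is the sum of `ℤ_p^r`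
and a finite group of the order of the `p`-part of `Ш(E/ℚ)`.  In suitable bases `A` has the blocks
`H` (of size `r`), `B`, `B'`, `C` such that the entries of `H`, `B`, `B'` lie in `I`, the
augmentation of `det C` is `#Ш` up to a unit, and the matrix `H` modulo `I²` (Bockstein
homomorphism) is the matrix `⟨x_i, x_j⟩_F` of the Mazur-Tate height pairing.

The *weak main conjecture* of Mazur and Tate says that `θ_F` lies in the Fitting ideal of `X_F`,
which is generated by `det A`, the *main conjecture* that `θ_F` generates this ideal.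
-/

namespace MTate

namespace MTData

variable (D : MTData) (p : ℕ) [Fact p.Prime]

/-- the matrix with the blocks `H`, `B`, `B'`, `C` over `ℤ_p[G]` has the properties of a
presentation of the dual of the Selmer group of `E` over the field `F` given by `f`: `H` is the
matrix of the heights `⟨x_i, x_j⟩_F` modulo `I²`, the entries of `B`, `B'` lie in `I`, and the
augmentation of `det C` is the product of a unit and of the order of `Ш(E/ℚ)` -/
structure IsDescent (m : ℕ) {G : Type*} [CommGroup G] (f : Gp m →* G) {s : ℕ}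
    (H : Matrix (Fin D.r) (Fin D.r) (MonoidAlgebra ℤ_[p] G))
    (B : Matrix (Fin D.r) (Fin s) (MonoidAlgebra ℤ_[p] G))
    (B' : Matrix (Fin s) (Fin D.r) (MonoidAlgebra ℤ_[p] G))
    (C : Matrix (Fin s) (Fin s) (MonoidAlgebra ℤ_[p] G)) : Prop where
  height : ∀ n : ℕ, p.Coprime n → (∀ j, D.InES m (n • D.x j)) →
    ∀ i j, H i j - push f (D.height p n m i j) ∈ augI ℤ_[p] G ^ 2
  upper : ∀ i j, B i j ∈ augI ℤ_[p] G
  lower : ∀ i j, B' i j ∈ augI ℤ_[p] G
  sha : ∃ u : ℤ_[p], IsUnit u ∧ eps ℤ_[p] G C.det = u * D.sha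

/-- **the weak main conjecture** for `F`: `θ_{F,S}` is divisible by `det A`, a generator of the
Fitting ideal of the dual of the Selmer group, for a descent presentation `A` -/
def WeakMC (m : ℕ) {G : Type*} [CommGroup G] (f : Gp m →* G) : Prop :=
  ∃ θ : MonoidAlgebra ℤ_[p] G, D.IsTheta p m f θ ∧
    ∃ (s : ℕ) (H : Matrix (Fin D.r) (Fin D.r) (MonoidAlgebra ℤ_[p] G))
      (B : Matrix (Fin D.r) (Fin s) (MonoidAlgebra ℤ_[p] G))
      (B' : Matrix (Fin s) (Fin D.r) (MonoidAlgebra ℤ_[p] G))
      (C : Matrix (Fin s) (Fin s) (MonoidAlgebra ℤ_[p] G)), D.IsDescent p m f H B B' C ∧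
        θ ∈ Ideal.span {(Matrix.fromBlocks H B B' C).det}

/-- **the main conjecture** for `F`: `θ_{F,S}` is the product of a unit and of `det A`, a generator
of the Fitting ideal of the dual of the Selmer group, for a descent presentation `A` -/
def MainC (m : ℕ) {G : Type*} [CommGroup G] (f : Gp m →* G) : Prop :=
  ∃ θ : MonoidAlgebra ℤ_[p] G, D.IsTheta p m f θ ∧
    ∃ (s : ℕ) (H : Matrix (Fin D.r) (Fin D.r) (MonoidAlgebra ℤ_[p] G))
      (B : Matrix (Fin D.r) (Fin s) (MonoidAlgebra ℤ_[p] G))
      (B' : Matrix (Fin s) (Fin D.r) (MonoidAlgebra ℤ_[p] G))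
      (C : Matrix (Fin s) (Fin s) (MonoidAlgebra ℤ_[p] G)), D.IsDescent p m f H B B' C ∧
        ∃ u : MonoidAlgebra ℤ_[p] G, IsUnit u ∧ θ = u * (Matrix.fromBlocks H B B' C).det

end MTData

end MTate
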