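import Mathlib
import Pool.Agent.Lib.MP_5deabe_nt_DF.Defs3

/-!
# Units of the group ring of a finite abelian `p`-group over `ℤ_p`
-/

namespace MTate

open MonoidAlgebra

variable {p : ℕ} [hp : Fact p.Prime]

theorem isUnit_of_eps {G : Type*} [CommGroup G] [Finite G] {k : ℕ} (hk : ∀ g : G, g ^ p ^ k = 1)
    {y : MonoidAlgebra ℤ_[p] G} (hy : IsUnit (eps ℤ_[p] G y)) : IsUnit y := by
  by_contra hcon
  obtain ⟨M, hM, hyM⟩ := exists_max_ideal_of_mem_nonunits (a := y) hcon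
  have hint : Algebra.IsIntegral ℤ_[p] (MonoidAlgebra ℤ_[p] G) := inferInstance
  have h1 := Ideal.isMaximal_comap_of_isIntegral_of_isMaximal (R := ℤ_[p]) M
  have h2 := IsLocalRing.eq_maximalIdeal h1
  have hpM : ((p : ℕ) : MonoidAlgebra ℤ_[p] G) ∈ M := by
    have h3 : ((p : ℕ) : ℤ_[p]) ∈ Ideal.comap (algebraMap ℤ_[p] (MonoidAlgebra ℤ_[p] G)) M := by
      rw [h2, PadicInt.maximalIdeal_eq_span_p]
      exact Ideal.mem_span_singleton_self _
    rw [Ideal.mem_comap, map_natCast] at h3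
    exact h3
  have hchar : CharP (MonoidAlgebra ℤ_[p] G ⧸ M) p := by
    have hnt : Nontrivial (MonoidAlgebra ℤ_[p] G ⧸ M) :=
      Ideal.Quotient.nontrivial_iff.mpr hM.ne_top
    rw [CharP.charP_iff_prime_eq_zero hp.out]
    rw [← map_natCast (Ideal.Quotient.mk M)]
    exact Ideal.Quotient.eq_zero_iff_mem.mpr hpM
  have hg : ∀ g : G, Ideal.Quotient.mk M (of ℤ_[p] G g) = 1 := by
    intro g
    have h3 : (Ideal.Quotient.mk M (of ℤ_[p] G g) - 1) ^ p ^ k = 0 := by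
      rw [sub_pow_char_pow, one_pow, ← map_pow, ← map_pow, hk, map_one, map_one, sub_self]
    have hfield : IsDomain (MonoidAlgebra ℤ_[p] G ⧸ M) :=
      (Ideal.Quotient.isDomain_iff_prime M).mpr hM.isPrime
    exact sub_eq_zero.mp (pow_eq_zero_iff (pow_ne_zero k hp.out.ne_zero) |>.mp h3)
  have h4 : (Ideal.Quotient.mkₐ ℤ_[p] M) =
      (Algebra.ofId ℤ_[p] (MonoidAlgebra ℤ_[p] G ⧸ M)).comp (eps ℤ_[p] G) := by
    apply MonoidAlgebra.algHom_ext
    · intro g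
      have h5 := hg g
      rw [AlgHom.comp_apply, eps_single, map_one]
      exact h5
    · ext
  have h5 : Ideal.Quotient.mk M y =
      algebraMap ℤ_[p] (MonoidAlgebra ℤ_[p] G ⧸ M) (eps ℤ_[p] G y) :=
    congrArg (fun F => F y) h4
  rw [Ideal.Quotient.eq_zero_iff_mem.mpr hyM] at h5
  have h6 := hy.map (algebraMap ℤ_[p] (MonoidAlgebra ℤ_[p] G ⧸ M))
  rw [← h5] at h6
  have hnt : Nontrivial (MonoidAlgebra ℤ_[p] G ⧸ M) :=
    Ideal.Quotient.nontrivial_iff.mpr hM.ne_top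
  exact not_isUnit_zero h6

end MTate
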