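import Mathlib
import Pool.Agent.Lib.MP_5deabe_nt_DF.Final
import Pool.Agent.Lib.MP_5deabe_nt_MC.Defs
import Pool.Agent.Lib.MP_5deabe_nt_MC.Loc

/-!
# The weak main conjecture implies Q1 up to one constant
-/

namespace MTate

open MonoidAlgebra

theorem det_fromBlocks_sub_mem {R : Type*} [CommRing R] (I : Ideal R) {r s : ℕ}
    (H : Matrix (Fin r) (Fin r) R) (B : Matrix (Fin r) (Fin s) R) (B' : Matrix (Fin s) (Fin r) R)
    (C : Matrix (Fin s) (Fin s) R) (hH : ∀ i j, H i j ∈ I) (hB : ∀ i j, B i j ∈ I)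
    (hB' : ∀ i j, B' i j ∈ I) :
    (Matrix.fromBlocks H B B' C).det - H.det * C.det ∈ I ^ (r + 1) := by
  classical
  rw [← Matrix.det_fromBlocks_zero₁₂ H B' C, Matrix.det_apply', Matrix.det_apply',
    ← Finset.sum_sub_distrib]
  refine Ideal.sum_mem _ fun σ _ => ?_
  rw [← mul_sub]
  refine Ideal.mul_mem_left _ _ ?_
  rw [Fintype.prod_sum_type, Fintype.prod_sum_type]
  have h1 : ∏ i : Fin r, Matrix.fromBlocks H B B' C (σ (Sum.inl i)) (Sum.inl i) =
      ∏ i : Fin r, Matrix.fromBlocks H 0 B' C (σ (Sum.inl i)) (Sum.inl i) := by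
    refine Finset.prod_congr rfl fun i _ => ?_
    rcases σ (Sum.inl i) with k | k <;> rfl
  have h2 : ∏ i : Fin r, Matrix.fromBlocks H 0 B' C (σ (Sum.inl i)) (Sum.inl i) ∈ I ^ r := by
    have := Ideal.prod_mem_prod (s := Finset.univ) (I := fun _ : Fin r => I)
      (x := fun i : Fin r => Matrix.fromBlocks H 0 B' C (σ (Sum.inl i)) (Sum.inl i)) fun i _ => by
        rcases σ (Sum.inl i) with k | k
        · exact hH k i
        · exact hB' k i
    simpa using this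
  rw [h1, ← mul_sub, pow_succ]
  refine Ideal.mul_mem_mul h2 ?_
  by_cases h : ∃ k i, σ (Sum.inr k) = Sum.inl i
  · obtain ⟨k, i, hk⟩ := h
    refine Ideal.sub_mem _ ?_ ?_
    · rw [← Finset.mul_prod_erase _ _ (Finset.mem_univ k), hk]
      exact Ideal.mul_mem_right _ _ (hB i k)
    · rw [← Finset.mul_prod_erase _ _ (Finset.mem_univ k), hk, Matrix.fromBlocks_apply₁₂]
      simp
  · have h3 : ∏ k : Fin s, Matrix.fromBlocks H B B' C (σ (Sum.inr k)) (Sum.inr k) =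
        ∏ k : Fin s, Matrix.fromBlocks H 0 B' C (σ (Sum.inr k)) (Sum.inr k) := by
      refine Finset.prod_congr rfl fun k _ => ?_
      push Not at h
      rcases hσ : σ (Sum.inr k) with i | k'
      · exact absurd hσ (h k i)
      · rfl
    rw [h3, sub_self]
    exact zero_mem _

variable {p : ℕ} [hp : Fact p.Prime] {D : MTData}

theorem mul_sub_eps_mem {G : Type*} [CommGroup G] (x : MonoidAlgebra ℤ_[p] G) {k : ℕ}
    {y : MonoidAlgebra ℤ_[p] G} (hy : y ∈ augI ℤ_[p] G ^ k) :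
    x * y - algebraMap ℤ_[p] _ (eps ℤ_[p] G x) * y ∈ augI ℤ_[p] G ^ (k + 1) := by
  rw [← sub_mul, pow_succ']
  exact Ideal.mul_mem_mul (sub_eps_mem x) hy

namespace MTData

variable {m : ℕ} {G : Type*} [CommGroup G] {f : Gp m →* G} {s : ℕ}
  {H : Matrix (Fin D.r) (Fin D.r) (MonoidAlgebra ℤ_[p] G)}
  {B : Matrix (Fin D.r) (Fin s) (MonoidAlgebra ℤ_[p] G)}
  {B' : Matrix (Fin s) (Fin D.r) (MonoidAlgebra ℤ_[p] G)}
  {C : Matrix (Fin s) (Fin s) (MonoidAlgebra ℤ_[p] G)}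

/-- `det A ≡ det C · R_F` modulo `I^{r+1}` -/
theorem IsDescent.det_sub (h : D.IsDescent p m f H B B' C) {n : ℕ} (hn : p.Coprime n)
    (hES : ∀ j, D.InES m (n • D.x j)) (y : MonoidAlgebra ℤ_[p] G) :
    y * (Matrix.fromBlocks H B B' C).det -
      algebraMap ℤ_[p] _ (eps ℤ_[p] G (y * C.det)) * D.reg p n m f ∈
        augI ℤ_[p] G ^ (D.r + 1) := by
  have e1 : ∀ i j, push f (D.height p n m i j) ∈ augI ℤ_[p] G := fun i j => by
    have h1 : push f (D.height p n m i j) ∈ augI ℤ_[p] G ^ 1 :=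
      push_mem f (by rw [pow_one]; exact height_mem n m i j)
    rwa [pow_one] at h1
  have hH' : ∀ i j, H i j ∈ augI ℤ_[p] G := fun i j => by
    have h1 := Ideal.add_mem _ (Ideal.pow_le_self two_ne_zero (h.height n hn hES i j)) (e1 i j)
    rwa [sub_add_cancel] at h1
  have h1 := det_fromBlocks_sub_mem (augI ℤ_[p] G) H B B' C hH' h.upper h.lower
  have h2 : H.det - D.reg p n m f ∈ augI ℤ_[p] G ^ (D.r + 1) :=
    (det_cong (I := augI ℤ_[p] G) H (Matrix.of fun i j => push f (D.height p n m i j))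
      fun i j => ⟨by rw [pow_one]; exact hH' i j, h.height n hn hES i j⟩).2
  have h3 := mul_sub_eps_mem (y * C.det) (reg_mem (p := p) (D := D) n m f)
  have h4 := Ideal.add_mem _ (Ideal.add_mem _ (Ideal.mul_mem_left _ y h1)
    (Ideal.mul_mem_left _ (y * C.det) h2)) h3
  convert h4 using 1
  ring

theorem WeakMC.vanish (h : ∀ m, D.Adm p m → ∀ (j : ℕ) (f : Gp m →* Cpn p j), IsField m f →
    D.WeakMC p m f) (n t : ℕ) : D.Vanish p n t := by
  intro m hm _ j _ f hf hdeg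
  obtain ⟨θ, hθ, s, H, B, B', C, hd, hdet⟩ := h m hm j f hf
  obtain ⟨n', hn', hES, b, hb, hE⟩ := hdeg
  obtain ⟨y, rfl⟩ := Ideal.mem_span_singleton'.1 hdet
  refine ⟨_, hθ, ?_⟩
  have h1 := Ideal.add_mem _ (hd.det_sub hn' hES y)
    (Ideal.mul_mem_left _ (algebraMap ℤ_[p] _ (eps ℤ_[p] _ (y * C.det)))
      (reg_mem_of_degenerate (n := n') hb hE))
  rwa [sub_add_cancel] at h1

theorem isUnit_v (hm : D.Adm p m) : IsUnit (∏ l ∈ m.primeFactors,
    (nsCard D.W l : ℤ_[p]) * Ring.inverse (l : ℤ_[p])) := by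
  rw [IsUnit.prod_iff]
  intro l hl
  refine IsUnit.mul (isUnit_cast (hm.2.2.2 l hl)) (IsUnit.ringInverse (isUnit_cast ?_))
  exact Nat.Coprime.coprime_dvd_right (Nat.dvd_of_mem_primeFactors hl) hm.2.2.1

/-- the leading term formula up to a constant for one field -/
theorem IsDescent.q1c (hP : D.Pairing2 p) (hm : D.Adm p m) (hd : D.IsDescent p m f H B B' C)
    {y : MonoidAlgebra ℤ_[p] G}
    (hθ : D.IsTheta p m f (y * (Matrix.fromBlocks H B B' C).det)) :
    ∃ e : ℤ_[p], IsUnit e ∧ D.Q1c p (e * eps ℤ_[p] G y * D.sha) m f := by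
  obtain ⟨u, hu, hC⟩ := hd.sha
  have hv := isUnit_v hm
  set v := ∏ l ∈ m.primeFactors, (nsCard D.W l : ℤ_[p]) * Ring.inverse (l : ℤ_[p]) with hvdef
  have hs : IsUnit ((-1 : ℤ_[p]) ^ m.primeFactors.card) := (isUnit_one.neg).pow _
  have he : (-1 : ℤ_[p]) ^ m.primeFactors.card * (-1 : ℤ_[p]) ^ m.primeFactors.card = 1 := by
    rw [← mul_pow, neg_mul_neg, one_mul, one_pow]
  refine ⟨(-1) ^ m.primeFactors.card * (u * Ring.inverse v),
    hs.mul (hu.mul hv.ringInverse), ?_⟩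
  have key : ∀ n : ℕ, p.Coprime n → (∀ j, D.InES m (n • D.x j)) →
      y * (Matrix.fromBlocks H B B' C).det - algebraMap ℤ_[p] _ ((-1) ^ m.primeFactors.card *
        ((-1) ^ m.primeFactors.card * (u * Ring.inverse v) * eps ℤ_[p] G y * D.sha * v)) *
          D.reg p n m f ∈ augI ℤ_[p] G ^ (D.r + 1) := by
    intro n hn hES
    have h1 := hd.det_sub hn hES y
    rw [map_mul, hC] at h1
    convert h1 using 3
    congr 1
    have e1 := Ring.inverse_mul_cancel _ hv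
    linear_combination (eps ℤ_[p] G y * u * D.sha * Ring.inverse v * v) * he +
      (eps ℤ_[p] G y * u * D.sha) * e1
  refine ⟨_, hθ, ?_, key⟩
  obtain ⟨n, hn, hES⟩ := hP.ext m hm
  have h4 := Ideal.add_mem _ (Ideal.pow_le_pow_right (Nat.le_succ D.r) (key n hn hES))
    (Ideal.mul_mem_left _ (algebraMap ℤ_[p] _ ((-1) ^ m.primeFactors.card *
        ((-1) ^ m.primeFactors.card * (u * Ring.inverse v) * eps ℤ_[p] G y * D.sha * v)))
      (reg_mem (p := p) (D := D) n m f))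
  rwa [sub_add_cancel] at h4

/-- `𝓛_S` is the product of a unit and of the order of `Ш` -/
theorem Lalg_one (hD : D.Valid p) : ∃ u : ℤ_[p], IsUnit u ∧ D.Lalg p 1 = u * D.sha := by
  have hg := hD.good
  have h1 : p.Coprime (6 * D.N * tors D.W * tam D.W D.N) := hg.coprime_mul_right_right
  have h2 : p.Coprime (tam D.W D.N) := h1.coprime_mul_left_right
  have h3 : p.Coprime (tors D.W) := h1.coprime_mul_right_right.coprime_mul_left_right
  have h4 : p.Coprime D.N :=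
    h1.coprime_mul_right_right.coprime_mul_right_right.coprime_mul_left_right
  have h5 : ∀ l ∈ (p * D.N).primeFactors, p.Coprime (nsCard D.W l) := fun l hl =>
    hg.coprime_dvd_right (Dvd.dvd.mul_left (Finset.dvd_prod_of_mem _ hl) _)
  refine ⟨tam D.W D.N * Ring.inverse ((tors D.W : ℤ_[p]) ^ 2) *
    ∏ l ∈ (1 * D.N).primeFactors, (nsCard D.W l : ℤ_[p]) * Ring.inverse (l : ℤ_[p]), ?_, ?_⟩
  · refine ((isUnit_cast h2).mul ((isUnit_cast h3).pow 2).ringInverse).mul ?_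
    rw [IsUnit.prod_iff]
    intro l hl
    rw [one_mul] at hl
    refine IsUnit.mul (isUnit_cast (h5 l ?_)) (IsUnit.ringInverse (isUnit_cast ?_))
    · have hN : D.N ≠ 0 := by
        intro h0
        rw [h0, Nat.primeFactors_zero] at hl
        exact absurd hl (Finset.notMem_empty l)
      exact Nat.primeFactors_mono (dvd_mul_left _ _) (mul_ne_zero hp.out.ne_zero hN) hl
    · exact Nat.Coprime.coprime_dvd_right (Nat.dvd_of_mem_primeFactors hl) h4
  · unfold Lalg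
    ring

theorem dvd_of_not_isUnit {u : ℤ_[p]} (hu : ¬ IsUnit u) : (p : ℤ_[p]) ∣ u := by
  rw [← PadicInt.norm_lt_one_iff_dvd]
  rw [PadicInt.isUnit_iff] at hu
  exact lt_of_le_of_ne (PadicInt.norm_le_one _) hu

theorem isUnit_sub {a b : ℤ_[p]} (ha : IsUnit a) (hb : (p : ℤ_[p]) ∣ b) : IsUnit (a - b) := by
  by_contra hcon
  have h1 := dvd_add (dvd_of_not_isUnit hcon) hb
  rw [sub_add_cancel] at h1
  exact PadicInt.prime_p.not_isUnit (isUnit_of_dvd_unit h1 ha)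

theorem eq_mul_of_dvd {c s : ℤ_[p]} (h : ∀ n, 1 ≤ n → ∃ e : ℤ_[p],
    (p : ℤ_[p]) ^ n ∣ e * s - c) : ∃ x : ℤ_[p], c = x * s := by
  have hp0 : (p : ℤ_[p]) ≠ 0 := PadicInt.prime_p.ne_zero
  rcases eq_or_ne s 0 with rfl | hs
  · refine ⟨1, ?_⟩
    rw [mul_zero]
    by_contra hc
    obtain ⟨v, U, hU, hcU⟩ : ∃ (v : ℕ) (U : ℤ_[p]), IsUnit U ∧ c = U * (p : ℤ_[p]) ^ v :=
      ⟨_, _, (PadicInt.unitCoeff hc).isUnit, PadicInt.unitCoeff_spec hc⟩
    obtain ⟨e, b, hb⟩ := h (v + 1) (by omega)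
    have h1 : (p : ℤ_[p]) ^ v * U = (p : ℤ_[p]) ^ v * (p * -b) := by
      rw [mul_comm, ← hcU]
      linear_combination -hb
    have h2 := mul_left_cancel₀ (pow_ne_zero v hp0) h1
    rw [h2] at hU
    exact PadicInt.prime_p.not_isUnit (isUnit_of_mul_isUnit_left hU)
  · obtain ⟨v, U, hU, hsU⟩ : ∃ (v : ℕ) (U : ℤ_[p]), IsUnit U ∧ s = U * (p : ℤ_[p]) ^ v :=
      ⟨_, _, (PadicInt.unitCoeff hs).isUnit, PadicInt.unitCoeff_spec hs⟩
    obtain ⟨e, b, hb⟩ := h (v + 1) (by omega)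
    refine ⟨e - p * (b * Ring.inverse U), ?_⟩
    have h1 := Ring.inverse_mul_cancel _ hU
    have h2 : c = e * s - (p : ℤ_[p]) ^ (v + 1) * b := by rw [← hb]; ring
    rw [h2, hsU]
    linear_combination ((p : ℤ_[p]) ^ (v + 1) * b) * h1

theorem exists_lev' (G : Type*) [CommGroup G] [Finite G] : ∃ n, 1 ≤ n ∧ Lev p n G := by
  have hcard : Nat.card G ≠ 0 := Nat.card_pos.ne'
  obtain ⟨n, k, hk, hn⟩ := Nat.exists_eq_pow_mul_and_not_dvd hcard p hp.out.one_lt.ne'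
  refine ⟨n + 1, by omega, k, (Nat.Prime.coprime_iff_not_dvd hp.out).mpr hk, fun g => ?_⟩
  have h1 : p ^ (n + 1) * k = Nat.card G * p := by
    rw [hn]
    ring
  rw [h1, pow_mul, pow_card_eq_one', one_pow]

/-- **The main theorem.** -/
theorem mainMC (hD : D.Valid p) (hr1 : 1 ≤ D.r) (hr : D.r < p)
    (hI : ∀ m, D.Adm p m → D.Integral p m) (hP : D.Pairing2 p) (t : ℕ → ℕ)
    (ht : ∀ n, 1 ≤ n → D.Adm p (t n) ∧ (∀ l ∈ (t n).primeFactors, p ^ n ∣ l - 1) ∧
      D.Independent p (t n))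
    (hK : ∀ m, D.Adm p m → ∀ (j : ℕ) (f : Gp m →* Cpn p j), IsField m f → D.WeakMC p m f) :
    ∃ u : ℤ_[p],
      (∀ m, D.Adm p m → ∀ (G : Type) [CommGroup G] (f : Gp m →* G), IsField m f →
        D.Q1c p (u * D.Lalg p 1) m f) ∧
      ∀ (n m : ℕ) (f : Gp m →* Cpn p n), 1 ≤ n → ¬ p ^ n ∣ D.sha → D.Adm p m → IsField m f →
        D.Perfect p m f → (IsUnit u ↔ D.MainC p m f) := by
  obtain ⟨c, hc⟩ := main_const hD hr1 hr hI hP {n | 1 ≤ n} t
    (fun n hn => ⟨hn, ht n hn⟩) (fun n _ => WeakMC.vanish hK n (t n))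
  obtain ⟨x, hx⟩ := eq_mul_of_dvd (c := c) (s := (D.sha : ℤ_[p])) fun n hn => by
    obtain ⟨ht1, htp, hind⟩ := ht n hn
    obtain ⟨n', hn', hES⟩ := hP.ext (t n) ht1
    obtain ⟨d, f, hd, hf, hperf, -⟩ := exists_perfect hD hr1 hP hn ht1 htp hind hn' hES
    have hdA := ht1.of_dvd hd
    obtain ⟨θ, hθ, s, H, B, B', C, hdesc, hdet⟩ := hK d hdA n f hf
    obtain ⟨y, rfl⟩ := Ideal.mem_span_singleton'.1 hdet
    obtain ⟨e, -, hQ⟩ := hdesc.q1c hP hdA hθ
    exact ⟨_, const_unique hr hP hdA hn hperf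
      (hc n hn d hdA (Cpn p n) f hf (lev_Cpn le_rfl)) hQ⟩
  obtain ⟨w, hw, hL⟩ := Lalg_one hD
  have hcL : x * Ring.inverse w * D.Lalg p 1 = c := by
    rw [hL, hx]
    have := Ring.inverse_mul_cancel _ hw
    linear_combination (x * D.sha) * this
  have hxw : IsUnit (x * Ring.inverse w) ↔ IsUnit x :=
    ⟨fun h => isUnit_of_mul_isUnit_left h, fun h => h.mul hw.ringInverse⟩
  refine ⟨x * Ring.inverse w, fun m hm G _ f hf => ?_, fun n m f hn hsha hm hf hperf => ?_⟩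
  · have := finite_Gp hm.1.ne_zero
    have := Finite.of_surjective f hf.1
    obtain ⟨n, hn, hG⟩ := exists_lev' (p := p) G
    rw [hcL]
    exact hc n hn m hm G f hf hG
  · have hsha' : ¬ (p : ℤ_[p]) ^ n ∣ (D.sha : ℤ_[p]) := by
      intro h
      apply hsha
      have h1 := (PadicInt.pow_p_dvd_int_iff n (D.sha : ℤ)).1 (by exact_mod_cast h)
      exact_mod_cast h1
    have hcf := hc n hn m hm (Cpn p n) f hf (lev_Cpn le_rfl)
    rw [hxw]
    constructor
    · intro hxu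
      obtain ⟨θ, hθ, s, H, B, B', C, hdesc, hdet⟩ := hK m hm n f hf
      obtain ⟨y, rfl⟩ := Ideal.mem_span_singleton'.1 hdet
      refine ⟨_, hθ, s, H, B, B', C, hdesc, y, ?_, rfl⟩
      have hfin := Cpn_finite (p := p) n
      refine isUnit_of_eps (k := n) (fun g => Cpn_pow_card _) ?_
      obtain ⟨e, he, hQ⟩ := hdesc.q1c hP hm hθ
      have h1 := const_unique hr hP hm hn hperf hcf hQ
      by_contra hcon
      have h2 : IsUnit (x - e * eps ℤ_[p] _ y) :=
        isUnit_sub hxu (Dvd.dvd.mul_left (dvd_of_not_isUnit hcon) e)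
      have h3 : e * eps ℤ_[p] _ y * D.sha - c = -((x - e * eps ℤ_[p] _ y) * D.sha) := by
        rw [hx]
        ring
      rw [h3, dvd_neg, h2.dvd_mul_left] at h1
      exact hsha' h1
    · rintro ⟨θ, hθ, s, H, B, B', C, hdesc, y, hy, rfl⟩
      obtain ⟨e, he, hQ⟩ := hdesc.q1c hP hm hθ
      have h1 := const_unique hr hP hm hn hperf hcf hQ
      by_contra hcon
      have h2 : IsUnit (e * eps ℤ_[p] _ y - x) :=
        isUnit_sub (he.mul (hy.map _)) (dvd_of_not_isUnit hcon)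
      have h3 : e * eps ℤ_[p] _ y * D.sha - c = (e * eps ℤ_[p] _ y - x) * D.sha := by
        rw [hx]
        ring
      rw [h3, h2.dvd_mul_left] at h1
      exact hsha' h1

end MTData

end MTate
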